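import Pool.Agent.H70.OQ.Targets

/-! MP_0f8dca_lc (oq_modules): modules CH2, DTP. -/

set_option autoImplicit false

namespace Pool.Agent.H85.OQ

open Finset Pool.Agent.H70.OQ

theorem ch2 : T_CH2 := by
  intro k r hk
  refine ⟨?_, Nat.choose_pos (by omega)⟩
  by_cases hr : k < r
  · rw [Nat.choose_eq_zero_of_lt hr]; simp
  · push Not at hr
    have h1 : (4 * k + r + 1 - r) ^ r ≤ (4 * k + r).descFactorial r :=
      Nat.pow_sub_le_descFactorial _ _
    have h2 : k.descFactorial r ≤ k ^ r := Nat.descFactorial_le_pow _ _
    have h3 : r.factorial * (4 ^ r * k.choose r) ≤ r.factorial * (4 * k + r).choose r := by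
      calc r.factorial * (4 ^ r * k.choose r) = 4 ^ r * (r.factorial * k.choose r) := by ring
        _ = 4 ^ r * k.descFactorial r := by rw [Nat.descFactorial_eq_factorial_mul_choose]
        _ ≤ 4 ^ r * k ^ r := Nat.mul_le_mul_left _ h2
        _ = (4 * k) ^ r := by rw [mul_pow]
        _ ≤ (4 * k + r + 1 - r) ^ r := Nat.pow_le_pow_left (by omega) _
        _ ≤ (4 * k + r).descFactorial r := h1
        _ = r.factorial * (4 * k + r).choose r := Nat.descFactorial_eq_factorial_mul_choose _ _
    exact Nat.le_of_mul_le_mul_left h3 (Nat.factorial_pos r)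

theorem dtp : T_DTP := by
  intro V _ T y
  induction T with
  | leaf b => exact ⟨∅, by simp [Pool.Agent.H68.AC.DT.depth], fun _ _ => rfl⟩
  | node v l r ihl ihr =>
    obtain ⟨Ql, hl1, hl2⟩ := ihl
    obtain ⟨Qr, hr1, hr2⟩ := ihr
    by_cases hv : y v = true
    · refine ⟨insert v Qr, ?_, fun y' hy' => ?_⟩
      · refine (card_insert_le _ _).trans ?_
        simp only [Pool.Agent.H68.AC.DT.depth]
        have := le_max_right l.depth r.depth
        omega
      · have h1 := hy' v (mem_insert_self _ _)
        have h2 := hr2 y' fun u hu => hy' u (mem_insert_of_mem hu)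
        simp only [Pool.Agent.H68.AC.DT.eval, h1, hv, cond_true]
        exact h2
    · have hv' : y v = false := by simpa using hv
      refine ⟨insert v Ql, ?_, fun y' hy' => ?_⟩
      · refine (card_insert_le _ _).trans ?_
        simp only [Pool.Agent.H68.AC.DT.depth]
        have := le_max_left l.depth r.depth
        omega
      · have h1 := hy' v (mem_insert_self _ _)
        have h2 := hl2 y' fun u hu => hy' u (mem_insert_of_mem hu)
        simp only [Pool.Agent.H68.AC.DT.eval, h1, hv', cond_false]
        exact h2

end Pool.Agent.H85.OQ
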