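import Pool.Agent.H70.OQ.Targets

/-! MP_0f8dca_lc (oq_modules): module CMB. -/

set_option autoImplicit false

namespace Pool.Agent.H85.OQ

open Finset Pool.Agent.H70.OQ Pool.Agent.H68.AC

variable {X : Type} [Fintype X] [DecidableEq X]

/-- flip the elements of `Z` -/
def fl (z : X → Bool) (Z : Finset X) : X → Bool := fun x => if x ∈ Z then !z x else z x

omit [Fintype X] in
theorem fl_fl (z : X → Bool) (Z : Finset X) : fl (fl z Z) Z = z := by
  funext x
  unfold fl
  by_cases h : x ∈ Z <;> simp [h]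

omit [Fintype X] [DecidableEq X] in
theorem ext_cpl (κ : PA X) (z : X → Bool) : Ext κ (cpl κ z) := by
  intro v b hv
  simp [cpl, hv]

omit [Fintype X] in
theorem ext_flp (κ : PA X) (z : X → Bool) (x : X) (hx : κ x = none) : Ext κ (flp (cpl κ z) x) := by
  intro v b hv
  have hne : v ≠ x := by
    rintro rfl
    rw [hx] at hv
    exact absurd hv (by simp)
  unfold flp
  rw [Function.update_of_ne hne]
  simp [cpl, hv]

omit [Fintype X] in
theorem cpl_fl (κ : PA X) (z : X → Bool) (Z : Finset X) (hZ : ∀ x ∈ Z, κ x = none) (v : X) :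
    cpl κ (fl z Z) v = if v ∈ Z then !(cpl κ z v) else cpl κ z v := by
  unfold cpl fl
  by_cases h : v ∈ Z
  · simp [h, hZ v h]
  · simp [h]

theorem key_T (h2 : T_DTP) (h3 : Pool.Agent.H6.NB.T_TUR) (w k r : ℕ)
    (κ : PA X) (g : (X → Bool) → Bool) (hx : X → (X → Bool) → Bool)
    (hg : ∃ T : DT X, T.depth ≤ w ∧ ∀ y, Ext κ y → T.eval y = g y)
    (hh : ∀ x, ∃ T : DT X, T.depth ≤ w ∧ ∀ y, Ext κ y → T.eval y = hx x y) (z : X → Bool)
    (hz : w + (2 * w + 1) * (4 * k + r) < (univ.filter fun x =>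
      κ x = none ∧ hx x (flp (cpl κ z) x) ≠ g (cpl κ z)).card) :
    ∃ T : Finset X, 4 * k + r ≤ T.card ∧ ∀ Z ⊆ T, ∀ x ∈ Z,
      hx x (cpl κ (fl z Z)) ≠ g (cpl κ (fl z Z)) := by
  classical
  obtain ⟨Tg, hTg, hTg'⟩ := hg
  choose Th hTh hTh' using hh
  obtain ⟨Q, hQ, hQ'⟩ := h2 X Tg (cpl κ z)
  have h2' : ∀ x, ∃ Q : Finset X, Q.card ≤ (Th x).depth ∧
      ∀ y', (∀ v ∈ Q, y' v = flp (cpl κ z) x v) → (Th x).eval y' = (Th x).eval (flp (cpl κ z) x) :=
    fun x => h2 X (Th x) (flp (cpl κ z) x)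
  choose Qx hQx hQx' using h2'
  set A := univ.filter fun x => κ x = none ∧ hx x (flp (cpl κ z) x) ≠ g (cpl κ z) with hA
  obtain ⟨T, hTA, hTc, hTR⟩ := h3 X (A \ Q) (fun x x' => x' ∈ Qx x ∧ x' ≠ x) w (by
    intro x _
    refine le_trans (card_le_card (t := Qx x) fun x' hx' => ?_) ((hQx x).trans (hTh x))
    exact (mem_filter.mp hx').2.1)
  have hcard : A.card ≤ (A \ Q).card + w := by
    have := Finset.card_le_card_sdiff_add_card (s := A) (t := Q)
    have := hQ.trans hTg
    omega
  refine ⟨T, ?_, ?_⟩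
  · have h1 : (2 * w + 1) * (4 * k + r) < (2 * w + 1) * T.card := by omega
    exact (Nat.lt_of_mul_lt_mul_left h1).le
  · intro Z hZ x hxZ
    have hfree : ∀ v ∈ Z, κ v = none := fun v hv => by
      have := hTA (hZ hv)
      rw [mem_sdiff, hA, mem_filter] at this
      exact this.1.2.1
    have hxA := hTA (hZ hxZ)
    rw [mem_sdiff, hA, mem_filter] at hxA
    have e1 : g (cpl κ (fl z Z)) = g (cpl κ z) := by
      rw [← hTg' _ (ext_cpl κ (fl z Z)), ← hTg' _ (ext_cpl κ z)]
      apply hQ'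
      intro v hv
      rw [cpl_fl κ z Z hfree, if_neg]
      intro hvZ
      have := hTA (hZ hvZ)
      rw [mem_sdiff] at this
      exact this.2 hv
    have e2 : hx x (cpl κ (fl z Z)) = hx x (flp (cpl κ z) x) := by
      rw [← hTh' x _ (ext_cpl κ (fl z Z)), ← hTh' x _ (ext_flp κ z x (hfree x hxZ))]
      apply hQx'
      intro v hv
      rw [cpl_fl κ z Z hfree]
      by_cases hvx : v = x
      · subst hvx
        simp [hxZ, flp]
      · have hvZ : v ∉ Z := fun hvZ => hTR x (hZ hxZ) v (hZ hvZ) (fun e => hvx e.symm) ⟨hv, hvx⟩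
        rw [if_neg hvZ]
        unfold flp
        rw [Function.update_of_ne hvx]
    rw [e1, e2]
    exact hxA.1.2.2

theorem cmb (h1 : T_CH2) (h2 : T_DTP) (h3 : Pool.Agent.H6.NB.T_TUR) : T_CMB := by
  intro X _ _ w k r κ g hx hk hg hh
  classical
  set Bad := univ.filter fun z : X → Bool => w + (2 * w + 1) * (4 * k + r) < (univ.filter fun x =>
    κ x = none ∧ hx x (flp (cpl κ z) x) ≠ g (cpl κ z)).card with hBad
  set B : (X → Bool) → Finset X := fun z => univ.filter fun x =>
    hx x (cpl κ z) ≠ g (cpl κ z) with hB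
  have hT : ∀ z : X → Bool, ∃ T : Finset X, z ∈ Bad → (4 * k + r ≤ T.card ∧ ∀ Z ⊆ T, ∀ x ∈ Z,
      hx x (cpl κ (fl z Z)) ≠ g (cpl κ (fl z Z))) := by
    intro z
    by_cases hz : z ∈ Bad
    · obtain ⟨T, hT⟩ := key_T h2 h3 w k r κ g hx hg hh z (mem_filter.mp hz).2
      exact ⟨T, fun _ => hT⟩
    · exact ⟨∅, fun h => absurd h hz⟩
  choose T hT using hT
  set c := (4 * k + r).choose r with hc
  -- the pairs
  have hP : Bad.card * c ≤ (Bad.sigma fun z => powersetCard r (T z)).card := by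
    rw [card_sigma, ← smul_eq_mul, ← Finset.sum_const]
    refine sum_le_sum fun z hz => ?_
    rw [card_powersetCard]
    exact Nat.choose_le_choose r (hT z hz).1
  have hQ : (Bad.sigma fun z => powersetCard r (T z)).card ≤
      ((univ : Finset (X → Bool)).sigma fun z => powersetCard r (B z)).card := by
    refine card_le_card_of_injOn (fun p : (_ : X → Bool) × Finset X => ⟨fl p.1 p.2, p.2⟩) ?_ ?_
    · rintro ⟨z, Z⟩ hp
      simp only [coe_sigma, Set.mem_sigma_iff, mem_coe, mem_powersetCard, mem_univ, true_and] at hp ⊢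
      refine ⟨fun x hxZ => ?_, hp.2.2⟩
      rw [hB]
      simp only [mem_filter, mem_univ, true_and]
      exact (hT z hp.1).2 Z hp.2.1 x hxZ
    · rintro ⟨z, Z⟩ _ ⟨z', Z'⟩ _ he
      simp only [Sigma.mk.injEq, heq_eq_eq] at he
      obtain ⟨e1, e2⟩ := he
      subst e2
      have : z = z' := by rw [← fl_fl z Z, e1, fl_fl]
      subst this
      rfl
  set F := (univ.filter fun z : X → Bool => k < (B z).card).card with hF
  have hR : ((univ : Finset (X → Bool)).sigma fun z => powersetCard r (B z)).card ≤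
      2 ^ Fintype.card X * k.choose r + F * Fintype.card X ^ r := by
    rw [card_sigma]
    calc ∑ z : X → Bool, (powersetCard r (B z)).card
        ≤ ∑ z : X → Bool, (k.choose r + if k < (B z).card then Fintype.card X ^ r else 0) := by
          refine sum_le_sum fun z _ => ?_
          rw [card_powersetCard]
          split_ifs with hz
          · refine (Nat.choose_le_choose r (card_le_univ (B z))).trans ?_
            exact (Nat.choose_le_pow _ _).trans (Nat.le_add_left _ _)
          · exact (Nat.choose_le_choose r (not_lt.mp hz)).trans (Nat.le_add_right _ _)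
      _ = 2 ^ Fintype.card X * k.choose r + F * Fintype.card X ^ r := by
          rw [sum_add_distrib, Finset.sum_const, card_univ, Fintype.card_fun, Fintype.card_bool,
            smul_eq_mul, ← Finset.sum_filter, Finset.sum_const, smul_eq_mul]
  obtain ⟨hc1, hc2⟩ := h1 k r hk
  have hfin : (Bad.card * 4 ^ r) * c ≤ (2 ^ Fintype.card X + 4 ^ r * Fintype.card X ^ r * F) * c := by
    calc (Bad.card * 4 ^ r) * c = 4 ^ r * (Bad.card * c) := by ring
      _ ≤ 4 ^ r * (2 ^ Fintype.card X * k.choose r + F * Fintype.card X ^ r) :=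
          Nat.mul_le_mul_left _ (hP.trans (hQ.trans hR))
      _ = 2 ^ Fintype.card X * (4 ^ r * k.choose r) + 4 ^ r * Fintype.card X ^ r * F * 1 := by ring
      _ ≤ 2 ^ Fintype.card X * c + 4 ^ r * Fintype.card X ^ r * F * c :=
          add_le_add (Nat.mul_le_mul_left _ hc1) (Nat.mul_le_mul_left _ hc2)
      _ = _ := by ring
  exact Nat.le_of_mul_le_mul_right hfin hc2

end Pool.Agent.H85.OQ
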