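import Pool.Agent.H70.OQ.Targets

/-! MP_0f8dca_lc (oq_modules): module PSH. -/

set_option autoImplicit false

namespace Pool.Agent.H85.OQ

open Finset Pool.Agent.H70.OQ Pool.Agent.H68.AC

/-- product principle -/
theorem pp {X A B : Type} [Fintype X] [DecidableEq X] [Fintype A] [Fintype B] [DecidableEq B]
    (f : A → B) (w : A → ℝ) (F : (X → B) → ℝ) :
    ∑ a : X → A, (∏ x, w (a x)) * F (fun x => f (a x)) =
      ∑ b : X → B, (∏ x, ∑ a ∈ univ.filter (fun a => f a = b x), w a) * F b := by
  classical
  rw [← Finset.sum_fiberwise univ (fun a : X → A => fun x => f (a x))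
    (fun a => (∏ x, w (a x)) * F (fun x => f (a x)))]
  refine sum_congr rfl fun b _ => ?_
  rw [Finset.prod_univ_sum, Finset.sum_mul]
  refine sum_congr ?_ ?_
  · ext a
    simp only [mem_filter, mem_univ, true_and, Fintype.mem_piFinset, funext_iff]
  · intro a ha
    simp only [Fintype.mem_piFinset, mem_filter, mem_univ, true_and] at ha
    congr 2
    funext x
    exact ha x

/-- first defined entry -/
def fo {d : ℕ} (c : Fin d → Option Bool) : ℕ → Option Bool
  | 0 => none
  | j + 1 => match fo c j with
    | some b => some b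
    | none => if h : j < d then c ⟨j, h⟩ else none

theorem fd_eq_fo {X : Type} {d : ℕ} (R : Fin d → PA X) (j : ℕ) (x : X) :
    fd R j x = fo (fun i => R i x) j := by
  induction j with
  | zero => rfl
  | succ j ih =>
    simp only [fd, fo, mrg, ih]
    rcases fo (fun i => R i x) j with _ | b
    · by_cases h : j < d <;> simp [h]
    · rfl

theorem fo_snoc {d : ℕ} (c : Fin d → Option Bool) (a : Option Bool) (j : ℕ) (hj : j ≤ d) :
    fo (Fin.snoc c a : Fin (d + 1) → Option Bool) j = fo c j := by
  induction j with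
  | zero => rfl
  | succ j ih =>
    have hjd : j < d := hj
    simp only [fo, ih hjd.le]
    have h1 : (Fin.snoc c a : Fin (d + 1) → Option Bool) ⟨j, by omega⟩ = c ⟨j, hjd⟩ := by
      have : (⟨j, by omega⟩ : Fin (d + 1)) = Fin.castSucc ⟨j, hjd⟩ := rfl
      rw [this, Fin.snoc_castSucc]
    simp only [hjd, dif_pos, show j < d + 1 by omega, h1]

theorem fo_snoc_last {d : ℕ} (c : Fin d → Option Bool) (a : Option Bool) :
    fo (Fin.snoc c a : Fin (d + 1) → Option Bool) (d + 1) =
      (match fo c d with | some b => some b | none => a) := by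
  simp only [fo, fo_snoc c a d le_rfl]
  have h1 : (Fin.snoc c a : Fin (d + 1) → Option Bool) ⟨d, by omega⟩ = a := by
    have : (⟨d, by omega⟩ : Fin (d + 1)) = Fin.last d := rfl
    rw [this, Fin.snoc_last]
  simp only [show d < d + 1 by omega, dif_pos, h1]

theorem sum_fo (q : ℝ) (d : ℕ) (g : Option Bool → ℝ) :
    ∑ c : Fin d → Option Bool, (∏ j, w1 q (1 / 2) (c j)) * g (fo c d) =
      q ^ d * g none + (1 - q ^ d) / 2 * (g (some true) + g (some false)) := by
  induction d generalizing g with
  | zero => simp [fo]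
  | succ d ih =>
    rw [← (Fin.snocEquiv (fun _ : Fin (d + 1) => Option Bool)).sum_comp, Fintype.sum_prod_type,
      Finset.sum_comm]
    have h1 : ∀ c : Fin d → Option Bool, ∑ a : Option Bool,
        (∏ j, w1 q (1 / 2) ((Fin.snocEquiv (fun _ : Fin (d + 1) => Option Bool)) (a, c) j)) *
          g (fo ((Fin.snocEquiv (fun _ : Fin (d + 1) => Option Bool)) (a, c)) (d + 1)) =
        (∏ j, w1 q (1 / 2) (c j)) * (fun o : Option Bool => match o with
          | some b => g (some b)
          | none => q * g none + (1 - q) / 2 * (g (some true) + g (some false))) (fo c d) := by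
      intro c
      have h2 : ∀ a : Option Bool, (Fin.snocEquiv (fun _ : Fin (d + 1) => Option Bool)) (a, c) =
          (Fin.snoc c a : Fin (d + 1) → Option Bool) := fun a => rfl
      simp only [h2, fo_snoc_last, Fin.prod_univ_castSucc, Fin.snoc_castSucc, Fin.snoc_last]
      rw [Fintype.sum_option]
      rcases fo c d with _ | b
      · simp only [w1, Fintype.sum_bool]; ring
      · simp only [w1, Fintype.sum_bool]; ring
    rw [Fintype.sum_congr _ _ h1, ih (fun o : Option Bool => match o with
          | some b => g (some b)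
          | none => q * g none + (1 - q) / 2 * (g (some true) + g (some false)))]
    simp only
    ring

theorem fib_weight (q : ℝ) (d : ℕ) (b : Bool × Bool) :
    ∑ a ∈ univ.filter (fun a : (Fin d → Option Bool) × Bool =>
      ((fo a.1 d).getD a.2, decide (fo a.1 d = none)) = b), ∏ j, w1 q (1 / 2) (a.1 j) =
      if b.2 then q ^ d else 1 - q ^ d := by
  rw [Finset.sum_filter, Fintype.sum_prod_type]
  have h1 : ∀ c : Fin d → Option Bool, ∑ z : Bool,
      (if ((fo c d).getD z, decide (fo c d = none)) = b then ∏ j, w1 q (1 / 2) (c j) else 0) =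
      (∏ j, w1 q (1 / 2) (c j)) * (fun o : Option Bool => ∑ z : Bool,
        if (o.getD z, decide (o = none)) = b then (1 : ℝ) else 0) (fo c d) := by
    intro c
    rw [Finset.mul_sum]
    refine sum_congr rfl fun z _ => ?_
    rw [mul_ite, mul_one, mul_zero]
  simp only at h1 ⊢
  rw [Fintype.sum_congr _ _ h1, sum_fo q d (fun o : Option Bool => ∑ z : Bool,
        if (o.getD z, decide (o = none)) = b then (1 : ℝ) else 0)]
  rcases b with ⟨b1, b2⟩
  cases b1 <;> cases b2 <;> simp

theorem psh : T_PSH := by
  intro X _ _ d q F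
  classical
  have key := pp (X := X) (fun a : (Fin d → Option Bool) × Bool =>
      ((fo a.1 d).getD a.2, decide (fo a.1 d = none))) (fun a => ∏ j, w1 q (1 / 2) (a.1 j))
      (fun b => F (fun x => (b x).1) (fun x => (b x).2))
  simp only [fib_weight] at key
  -- right side
  have hR : ∑ b : X → Bool × Bool, (∏ x, if (b x).2 then q ^ d else 1 - q ^ d) *
      F (fun x => (b x).1) (fun x => (b x).2) =
      ∑ y : X → Bool, ∑ l : X → Bool, lw (q ^ d) l * F y l := by
    rw [← (Equiv.arrowProdEquivProdArrow X (fun _ => Bool) (fun _ => Bool)).symm.sum_comp,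
      Fintype.sum_prod_type]
    rfl
  rw [← hR, ← key, ← Fintype.sum_prod_type']
  -- left side
  let e : ((Fin d → PA X) × (X → Bool)) ≃ (X → (Fin d → Option Bool) × Bool) :=
    { toFun := fun p x => (fun j => p.1 j x, p.2 x)
      invFun := fun a => (fun j x => (a x).1 j, fun x => (a x).2)
      left_inv := fun _ => rfl
      right_inv := fun _ => rfl }
  rw [← e.sum_comp]
  refine Fintype.sum_congr _ _ fun p => ?_
  have h1 : Wt q (1 / 2) p.1 = ∏ x, ∏ j, w1 q (1 / 2) (p.1 j x) := by
    unfold Wt wt
    rw [Finset.prod_comm]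
  rw [h1]
  have h2 : cpl (fd p.1 d) p.2 = fun x => ((fo (fun j => p.1 j x) d).getD (p.2 x)) := by
    funext x
    simp only [cpl, fd_eq_fo]
  have h3 : (fun x => decide (fd p.1 d x = none)) =
      fun x => decide (fo (fun j => p.1 j x) d = none) := by
    funext x
    rw [fd_eq_fo]
  rw [h2, h3]
  rfl

end Pool.Agent.H85.OQ
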